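import Pool.Agent.Lib_MP_418a80_eg.Bridge
import Pool.Agent.Lib_MP_418a80_ab.Stmt

/-!
# Ergodic cocycle perturbations for amenable groups with a compact open subgroup

Let `G` be a second countable, locally compact, noncompact, amenable group with a compact open
subgroup `K` (for instance a discrete or a totally disconnected group), and let `M` be a II₁ factor
with separable predual. Every strictly outer action `α` of `G` on `M` has an ergodic cocycle
perturbation; the cocycle can be chosen to be trivial on `K`.
-/

set_option autoImplicit false

open MeasureTheory TopologicalSpace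

namespace Pool.Agent.Kept.MP_418a80_an.CompactOpenSubgroups

open Pool.Agent.AbCoc

universe u v

theorem result {G : Type v} [Group G] [TopologicalSpace G] [IsTopologicalGroup G]
    [SecondCountableTopology G] [LocallyCompactSpace G] [T2Space G] [NoncompactSpace G]
    [MeasurableSpace G] [BorelSpace G] (μ : Measure G) [μ.IsHaarMeasure]
    (hμ : ErgLC.FolnerCondition μ)
    (K : Subgroup G) (hKo : IsOpen (K : Set G)) (hKc : IsCompact (K : Set G))
    {H : Type u} [NormedAddCommGroup H] [InnerProductSpace ℂ H] [CompleteSpace H]
    [SeparableSpace H] (M : VonNeumannAlgebra H) (hM : IsII1Factor M)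
    (α : G → (H →L[ℂ] H) → (H →L[ℂ] H)) (hα : IsAction M α)
    (hout : ErgCP.IsStrictlyOuter μ M α) :
    ∃ v : G → (H →L[ℂ] H), IsCocycle M α v ∧ PerturbationIsErgodic M α v ∧
      ∀ k ∈ K, v k = 1 :=
  compactOpen_theorem μ hμ K hKo hKc hM hα ((ErgCP.isStrictlyOuter_iff μ M α).1 hout)

end Pool.Agent.Kept.MP_418a80_an.CompactOpenSubgroups
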